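import Mathlib

/-!
# Ascent sequences, containment, minimality for the decreasing pattern
-/

namespace Pb4bd03

open scoped List

/-- The number of ascents of a list: positions `i` with `s_i < s_{i+1}`. -/
def asc : List ℕ → ℕ
  | [] => 0
  | [_] => 0
  | a :: b :: t => (if a < b then 1 else 0) + asc (b :: t)

/-- Ascent sequences: the first entry is `0`, and each later entry is at most
one more than the number of ascents of the part before it. -/
def IsAscentSeq (s : List ℕ) : Prop :=
  s.head? = some 0 ∧
    ∀ (i : ℕ) (h : i < s.length), 0 < i → s[i] ≤ 1 + asc (s.take i)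

/-- `Contains s t`: some subsequence of `s` is order-isomorphic to `t`. -/
def Contains (s t : List ℕ) : Prop :=
  ∃ f : Fin t.length → Fin s.length, StrictMono f ∧
    ∀ a b, (s.get (f a) < s.get (f b) ↔ t.get a < t.get b) ∧
      (s.get (f a) = s.get (f b) ↔ t.get a = t.get b)

/-- The decreasing pattern `(k-1, k-2, …, 1, 0)`. -/
def delta (k : ℕ) : List ℕ := (List.range k).reverse

/-- `δ_k`-minimal ascent sequences. -/
def IsMinimal (k : ℕ) (s : List ℕ) : Prop :=
  IsAscentSeq s ∧ Contains s (delta k) ∧
    ∀ t, IsAscentSeq t → Contains s t → t.length < s.length → ¬ Contains t (delta k)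

/-- `L k` is the supremum of the lengths of `δ_k`-minimal ascent sequences. -/
noncomputable def L (k : ℕ) : ℕ∞ :=
  ⨆ (s : List ℕ) (_ : IsMinimal k s), (s.length : ℕ∞)

/-! ## Elementary facts -/

@[simp] theorem asc_nil : asc [] = 0 := rfl
@[simp] theorem asc_single (a : ℕ) : asc [a] = 0 := rfl
@[simp] theorem asc_cons_cons (a b : ℕ) (t : List ℕ) :
    asc (a :: b :: t) = (if a < b then 1 else 0) + asc (b :: t) := rfl

theorem asc_append_cons (l : List ℕ) (a : ℕ) (t : List ℕ) :
    asc (l ++ a :: t) = asc (l ++ [a]) + asc (a :: t) := by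
  induction l with
  | nil => simp
  | cons x l ih =>
    cases l with
    | nil =>
      simp
    | cons y l =>
      simp only [List.cons_append, asc_cons_cons] at ih ⊢
      rw [ih]; ring

theorem asc_append_two (l : List ℕ) (a b : ℕ) :
    asc (l ++ [a, b]) = asc (l ++ [a]) + (if a < b then 1 else 0) := by
  rw [asc_append_cons]; simp

/-- `Ok r c p l`: every letter `x` of `l` satisfies `r x ≤ c + (ascents before it)`, where the
letter before `l` is `p`. -/
def Ok (r : ℕ → ℕ) : ℕ → ℕ → List ℕ → Prop
  | _, _, [] => True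
  | c, p, x :: t => r x ≤ c ∧ Ok r (if p < x then c + 1 else c) x t

@[simp] theorem Ok_nil (r : ℕ → ℕ) (c p : ℕ) : Ok r c p [] ↔ True := Iff.rfl
@[simp] theorem Ok_cons (r : ℕ → ℕ) (c p x : ℕ) (t : List ℕ) :
    Ok r c p (x :: t) ↔ r x ≤ c ∧ Ok r (if p < x then c + 1 else c) x t := Iff.rfl

theorem Ok_append (r : ℕ → ℕ) (c p : ℕ) (l m : List ℕ) :
    Ok r c p (l ++ m) ↔ Ok r c p l ∧ Ok r (c + asc (p :: l)) ((p :: l).getLast (by simp)) m := by
  induction l generalizing c p with
  | nil => simp
  | cons x l ih =>
    have hgl : (p :: x :: l).getLast (by simp) = (x :: l).getLast (by simp) :=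
      List.getLast_cons (by simp)
    simp only [List.cons_append, Ok_cons, ih, asc_cons_cons, and_assoc]
    rw [hgl]
    split_ifs
    · rw [← add_assoc]
    · rw [zero_add]

theorem Ok_mono {r : ℕ → ℕ} {c c' p : ℕ} {l : List ℕ} (h : Ok r c p l) (hc : c ≤ c') :
    Ok r c' p l := by
  induction l generalizing c c' p with
  | nil => trivial
  | cons x l ih =>
    simp only [Ok_cons] at h ⊢
    refine ⟨h.1.trans hc, ih h.2 ?_⟩
    split_ifs <;> omega

theorem Ok_le {r r' : ℕ → ℕ} {c p : ℕ} {l : List ℕ} (h : Ok r c p l)
    (hr : ∀ x ∈ l, r' x ≤ r x) : Ok r' c p l := by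
  induction l generalizing c p with
  | nil => trivial
  | cons x l ih =>
    simp only [Ok_cons] at h ⊢
    exact ⟨(hr x (by simp)).trans h.1, ih h.2 (fun y hy => hr y (by simp [hy]))⟩

theorem Ok_iff (r : ℕ → ℕ) (c p : ℕ) (l : List ℕ) :
    Ok r c p l ↔ ∀ (i : ℕ) (h : i < l.length), r l[i] ≤ c + asc (p :: l.take i) := by
  induction l generalizing c p with
  | nil => simp
  | cons x l ih =>
    rw [Ok_cons, ih]
    constructor
    · rintro ⟨h1, h2⟩ i hi
      cases i with
      | zero => simpa using h1
      | succ i =>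
        have := h2 i (by simpa using hi)
        simp only [List.getElem_cons_succ, List.take_succ_cons, asc_cons_cons]
        split_ifs at this ⊢ <;> omega
    · intro h
      refine ⟨by have := h 0 (by simp); simp only [List.getElem_cons_zero] at this; simpa using this, ?_⟩
      intro i hi
      have := h (i + 1) (by simpa using hi)
      simp only [List.getElem_cons_succ, List.take_succ_cons, asc_cons_cons] at this
      split_ifs at this ⊢ <;> omega

theorem isAscentSeq_iff (s : List ℕ) :
    IsAscentSeq s ↔ ∃ t, s = 0 :: t ∧ Ok id 1 0 t := by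
  constructor
  · rintro ⟨h1, h2⟩
    cases s with
    | nil => simp at h1
    | cons a t =>
      simp at h1
      subst h1
      refine ⟨t, rfl, ?_⟩
      rw [Ok_iff]
      intro i hi
      have := h2 (i + 1) (by simpa using hi) (by omega)
      simpa using this
  · rintro ⟨t, rfl, h⟩
    refine ⟨rfl, ?_⟩
    intro i hi hi0
    obtain ⟨j, rfl⟩ : ∃ j, i = j + 1 := ⟨i - 1, by omega⟩
    rw [Ok_iff] at h
    have := h j (by simpa using hi)
    simpa using this

/-- rank of `x` in `u`: number of distinct letters of `u` less than `x`. -/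
def rk (u : List ℕ) (x : ℕ) : ℕ := (u.toFinset.filter (· < x)).card

theorem rk_le_self (u : List ℕ) (x : ℕ) : rk u x ≤ x := by
  unfold rk
  calc (u.toFinset.filter (· < x)).card ≤ (Finset.range x).card := by
        apply Finset.card_le_card
        intro y hy
        simp at hy ⊢
        exact hy.2
    _ = x := by simp

theorem rk_mono (u : List ℕ) {x y : ℕ} (h : x ≤ y) : rk u x ≤ rk u y := by
  unfold rk
  apply Finset.card_le_card
  intro z hz
  simp at hz ⊢
  exact ⟨hz.1, by omega⟩

theorem rk_lt {u : List ℕ} {x y : ℕ} (hx : x ∈ u) (h : x < y) : rk u x < rk u y := by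
  unfold rk
  apply Finset.card_lt_card
  rw [Finset.ssubset_iff_of_subset]
  · exact ⟨x, by simp [hx, h], by simp⟩
  · intro z hz
    simp at hz ⊢
    exact ⟨hz.1, by omega⟩

theorem rk_lt_iff {u : List ℕ} {x y : ℕ} (hx : x ∈ u) : rk u x < rk u y ↔ x < y := by
  constructor
  · intro h
    by_contra hc
    push Not at hc
    have := rk_mono u hc
    omega
  · exact rk_lt hx

theorem rk_eq_iff {u : List ℕ} {x y : ℕ} (hx : x ∈ u) (hy : y ∈ u) : rk u x = rk u y ↔ x = y := by
  constructor
  · intro h
    rcases lt_trichotomy x y with h1 | h1 | h1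
    · have := rk_lt hx h1; omega
    · exact h1
    · have := rk_lt hy h1; omega
  · rintro rfl; rfl

/-- Monotonicity of rank under inclusion of supports. -/
theorem rk_subset {u v : List ℕ} (h : ∀ x ∈ u, x ∈ v) (x : ℕ) : rk u x ≤ rk v x := by
  unfold rk
  apply Finset.card_le_card
  intro z hz
  simp at hz ⊢
  exact ⟨h z hz.1, hz.2⟩

theorem asc_map {f : ℕ → ℕ} {u : List ℕ} (h : ∀ x ∈ u, ∀ y ∈ u, (f x < f y ↔ x < y)) :
    asc (u.map f) = asc u := by
  induction u with
  | nil => rfl
  | cons a t ih =>
    cases t with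
    | nil => rfl
    | cons b t =>
      simp only [List.map_cons, asc_cons_cons]
      rw [← List.map_cons, ih]
      · simp only [h a (by simp) b (by simp)]
      · intro x hx y hy
        exact h x (by simp at hx ⊢; tauto) y (by simp at hy ⊢; tauto)

theorem Ok_map {f : ℕ → ℕ} {c p : ℕ} {u : List ℕ}
    (h : ∀ x ∈ p :: u, ∀ y ∈ p :: u, (f x < f y ↔ x < y)) :
    Ok id c (f p) (u.map f) ↔ Ok f c p u := by
  induction u generalizing c p with
  | nil => simp
  | cons a t ih =>
    simp only [List.map_cons, Ok_cons, id]
    rw [ih]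
    · simp only [h p (by simp) a (by simp)]
    · intro x hx y hy
      exact h x (by simp at hx ⊢; tauto) y (by simp at hy ⊢; tauto)

/-- `u`, once standardized, is an ascent sequence. -/
def Good (u : List ℕ) : Prop := ∃ a t, u = a :: t ∧ rk u a = 0 ∧ Ok (rk u) 1 a t

/-- standardization -/
def st (u : List ℕ) : List ℕ := u.map (rk u)

theorem st_isAscentSeq {u : List ℕ} (h : Good u) : IsAscentSeq (st u) := by
  obtain ⟨a, t, rfl, h0, hok⟩ := h
  rw [isAscentSeq_iff]
  refine ⟨t.map (rk (a :: t)), ?_, ?_⟩
  · simp [st, h0]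
  · have := (Ok_map (f := rk (a :: t)) (c := 1) (p := a) (u := t) ?_).2 hok
    · rwa [h0] at this
    · intro x hx y _
      exact rk_lt_iff hx

/-- A sublist of `s` yields containment of any list with the same order pattern. -/
theorem contains_map_of_sublist {s u : List ℕ} (h : u <+ s) {f : ℕ → ℕ}
    (hf : ∀ x ∈ u, ∀ y ∈ u, (f x < f y ↔ x < y)) : Contains s (u.map f) := by
  rw [List.sublist_iff_exists_fin_orderEmbedding_get_eq] at h
  obtain ⟨g, hg⟩ := h
  have hl : (u.map f).length = u.length := by simp
  refine ⟨fun i => g (Fin.cast hl i), ?_, ?_⟩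
  · intro a b hab
    exact g.strictMono (by simpa using hab)
  · intro a b
    have e1 : ∀ a : Fin (u.map f).length, (u.map f).get a = f (u.get (Fin.cast hl a)) := by
      intro a; simp
    rw [e1, e1, ← hg, ← hg]
    have ha : u.get (Fin.cast hl a) ∈ u := List.get_mem _ _
    have hb : u.get (Fin.cast hl b) ∈ u := List.get_mem _ _
    refine ⟨(hf _ ha _ hb).symm, ?_⟩
    constructor
    · intro e; rw [e]
    · intro e
      rcases lt_trichotomy (u.get (Fin.cast hl a)) (u.get (Fin.cast hl b)) with h1 | h1 | h1
      · have := (hf _ ha _ hb).2 h1; omega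
      · exact h1
      · have := (hf _ hb _ ha).2 h1; omega

theorem contains_st {s u : List ℕ} (h : u <+ s) : Contains s (st u) :=
  contains_map_of_sublist h (fun _ hx _ _ => rk_lt_iff hx)

@[simp] theorem delta_length (k : ℕ) : (delta k).length = k := by simp [delta]

theorem delta_get (k : ℕ) (i : Fin (delta k).length) : (delta k).get i = k - 1 - i := by
  unfold delta at i ⊢
  rw [List.get_eq_getElem, List.getElem_reverse, List.getElem_range, List.length_range]

theorem ofFn_sublist {n : ℕ} {s : List ℕ} {f : Fin n → Fin s.length} (hf : StrictMono f) :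
    List.ofFn (fun i => s.get (f i)) <+ s := by
  rw [List.sublist_iff_exists_fin_orderEmbedding_get_eq]
  have hl : (List.ofFn (fun i => s.get (f i))).length = n := by simp
  refine ⟨OrderEmbedding.ofStrictMono (fun i => f (Fin.cast hl i)) ?_, ?_⟩
  · intro a b hab
    exact hf (by simpa using hab)
  · intro i
    simp only [List.get_ofFn]
    rfl

/-- Existence of a strictly decreasing subsequence of length `k`. -/
def HasDec (k : ℕ) (s : List ℕ) : Prop := ∃ d, d <+ s ∧ d.Pairwise (· > ·) ∧ d.length = k

theorem contains_delta_iff (k : ℕ) (s : List ℕ) : Contains s (delta k) ↔ HasDec k s := by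
  constructor
  · rintro ⟨f, hf, h⟩
    refine ⟨List.ofFn (fun i => s.get (f i)), ofFn_sublist hf, ?_, by simp⟩
    · rw [List.pairwise_ofFn]
      intro i j hij
      have := (h j i).1.2
      apply this
      rw [delta_get, delta_get]
      have h1 := j.2
      have h2 : (i : ℕ) < j := hij
      simp only [delta_length] at h1
      omega
  · rintro ⟨d, hd, hp, hl⟩
    subst hl
    have : delta d.length = d.map (rk d) := by
      apply List.ext_get (by simp)
      intro i h1 h2
      rw [delta_get]
      simp only [List.get_eq_getElem, List.getElem_map]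
      have hi : i < d.length := by simpa using h1
      unfold rk
      -- elements less than d[i] are d[j], j > i
      have hset : d.toFinset.filter (· < d[i]) = (d.drop (i + 1)).toFinset := by
        ext y
        simp only [Finset.mem_filter, List.mem_toFinset]
        constructor
        · rintro ⟨hy, hlt⟩
          obtain ⟨j, hj, rfl⟩ := List.getElem_of_mem hy
          have hij : i < j := by
            by_contra hc
            push Not at hc
            rcases hc.lt_or_eq with h | h
            · have := List.pairwise_iff_getElem.1 hp j i hj hi h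
              omega
            · subst h; omega
          rw [List.mem_iff_getElem]
          refine ⟨j - (i + 1), by simp; omega, ?_⟩
          simp only [List.getElem_drop]
          congr 1; omega
        · intro hy
          rw [List.mem_iff_getElem] at hy
          obtain ⟨j, hj, rfl⟩ := hy
          simp only [List.getElem_drop]
          refine ⟨List.getElem_mem _, ?_⟩
          exact List.pairwise_iff_getElem.1 hp i _ hi _ (by omega)
      rw [hset, List.toFinset_card_of_nodup]
      · simp; omega
      · have : (d.drop (i+1)).Pairwise (· > ·) := hp.sublist (List.drop_sublist _ _)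
        exact this.imp (fun h => by omega)
    rw [this]
    exact contains_map_of_sublist hd (fun _ hx _ _ => rk_lt_iff hx)

/-- The key consequence of minimality. -/
theorem eq_of_minimal {k : ℕ} {s u : List ℕ} (hs : IsMinimal k s) (hu : u <+ s) (hg : Good u)
    (hd : HasDec k u) : u = s := by
  by_contra hne
  have hlt : u.length < s.length := by
    rcases hu.length_le.lt_or_eq with h | h
    · exact h
    · exact absurd (hu.eq_of_length h) hne
  have h1 := hs.2.2 (st u) (st_isAscentSeq hg) (contains_st hu) (by simpa [st] using hlt)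
  apply h1
  rw [contains_delta_iff]
  obtain ⟨d, hd1, hd2, hd3⟩ := hd
  refine ⟨d.map (rk u), hd1.map _, ?_, by simpa using hd3⟩
  rw [List.pairwise_map]
  rw [List.pairwise_iff_forall_sublist] at hd2 ⊢
  intro a b hab
  have hb : b ∈ u := hd1.subset (hab.subset (by simp))
  exact rk_lt hb (hd2 hab)

/-- Conversely: a criterion for minimality, phrased with sublists. -/
theorem isMinimal_of {k : ℕ} {s : List ℕ} (h1 : IsAscentSeq s) (h2 : HasDec k s)
    (h3 : ∀ u, u <+ s → Good u → HasDec k u → u = s) : IsMinimal k s := by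
  refine ⟨h1, (contains_delta_iff k s).2 h2, ?_⟩
  rintro t ht ⟨f, hf, hfe⟩ hlt hc
  -- the sublist of `s` at the positions of `f`
  set u : List ℕ := List.ofFn (fun i => s.get (f i)) with hu
  have hul : u.length = t.length := by simp [hu]
  have hsub : u <+ s := ofFn_sublist hf
  have hget : ∀ i (h1 : i < u.length) (h2 : i < t.length), u[i] = s.get (f ⟨i, h2⟩) := by
    intro i h1 h2
    simp [hu]
  -- `t = u.map g` for a monotone relabelling; we build the inverse relabelling `φ` with
  -- `u = t.map φ`.
  have hlt' : ∀ i j (hi : i < u.length) (hj : j < u.length) (hi' : i < t.length)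
      (hj' : j < t.length), (u[i] < u[j] ↔ t[i] < t[j]) ∧ (u[i] = u[j] ↔ t[i] = t[j]) := by
    intro i j hi hj hi' hj'
    rw [hget i hi hi', hget j hj hj']
    exact hfe ⟨i, hi'⟩ ⟨j, hj'⟩
  -- the relabelling
  have hφ : ∃ φ : ℕ → ℕ, u = t.map φ ∧ ∀ x ∈ t, ∀ y ∈ t, (φ x < φ y ↔ x < y) := by
    classical
    refine ⟨fun x => if h : ∃ i, ∃ (hi : i < t.length), t[i] = x then
      u[h.choose]'(by rw [hul]; exact h.choose_spec.choose) else 0, ?_, ?_⟩
    · apply List.ext_getElem (by simp [hul])
      intro i h1 h2
      simp only [List.getElem_map]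
      have hi' : i < t.length := by omega
      have hex : ∃ j, ∃ (hj : j < t.length), t[j] = t[i] := ⟨i, hi', rfl⟩
      rw [dif_pos hex]
      have hc := hex.choose_spec
      obtain ⟨hc1, hc2⟩ := hc
      exact ((hlt' i hex.choose h1 (by omega) hi' hc1).2.2 hc2.symm)
    · intro x hx y hy
      obtain ⟨i, hi, rfl⟩ := List.getElem_of_mem hx
      obtain ⟨j, hj, rfl⟩ := List.getElem_of_mem hy
      have hexi : ∃ a, ∃ (ha : a < t.length), t[a] = t[i] := ⟨i, hi, rfl⟩
      have hexj : ∃ a, ∃ (ha : a < t.length), t[a] = t[j] := ⟨j, hj, rfl⟩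
      simp only
      rw [dif_pos hexi, dif_pos hexj]
      have ci := hexi.choose_spec
      have cj := hexj.choose_spec
      obtain ⟨ci1, ci2⟩ := ci
      obtain ⟨cj1, cj2⟩ := cj
      rw [(hlt' hexi.choose hexj.choose (by omega) (by omega) ci1 cj1).1, ci2, cj2]
  obtain ⟨φ, hφ1, hφ2⟩ := hφ
  -- `rk u (φ x) = rk t x`
  have hrk : ∀ x ∈ t, rk u (φ x) = rk t x := by
    intro x hx
    unfold rk
    have : u.toFinset.filter (· < φ x) = (t.toFinset.filter (· < x)).image φ := by
      ext y
      simp only [Finset.mem_filter, List.mem_toFinset, Finset.mem_image]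
      constructor
      · rintro ⟨hy, hyx⟩
        rw [hφ1, List.mem_map] at hy
        obtain ⟨z, hz, rfl⟩ := hy
        exact ⟨z, ⟨hz, (hφ2 z hz x hx).1 hyx⟩, rfl⟩
      · rintro ⟨z, ⟨hz, hzx⟩, rfl⟩
        exact ⟨by rw [hφ1]; exact List.mem_map_of_mem hz, (hφ2 z hz x hx).2 hzx⟩
    rw [this, Finset.card_image_of_injOn]
    intro a ha b hb hab
    simp only [Finset.coe_filter, List.mem_toFinset, Set.mem_ofPred_eq] at ha hb
    rcases lt_trichotomy a b with h | h | h
    · have := (hφ2 a ha.1 b hb.1).2 h
      omega
    · exact h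
    · have := (hφ2 b hb.1 a ha.1).2 h
      omega
  have hgood : Good u := by
    rw [isAscentSeq_iff] at ht
    obtain ⟨t', rfl, hok⟩ := ht
    refine ⟨φ 0, t'.map φ, by rw [hφ1]; simp, ?_, ?_⟩
    · rw [hrk 0 (by simp)]
      have := rk_le_self (0 :: t') 0
      omega
    · have h1 : ∀ (c p : ℕ) (l : List ℕ), (∀ x ∈ p :: l, x ∈ 0 :: t') →
          Ok id c p l → Ok (rk u) c (φ p) (l.map φ) := by
        intro c p l
        induction l generalizing c p with
        | nil => intros; trivial
        | cons x l ih =>
          intro hm hO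
          simp only [List.map_cons, Ok_cons] at hO ⊢
          refine ⟨?_, ?_⟩
          · rw [hrk x (hm x (by simp))]
            exact (rk_le_self _ _).trans hO.1
          · have := ih _ x (fun y hy => hm y (by simp at hy ⊢; tauto)) hO.2
            simp only [hφ2 p (hm p (by simp)) x (hm x (by simp))]
            exact this
      exact h1 1 0 t' (fun x hx => hx) hok
  have hdec : HasDec k u := by
    rw [contains_delta_iff] at hc
    obtain ⟨d, hd1, hd2, hd3⟩ := hc
    refine ⟨d.map φ, by rw [hφ1]; exact hd1.map _, ?_, by simpa using hd3⟩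
    rw [List.pairwise_map]
    rw [List.pairwise_iff_forall_sublist] at hd2 ⊢
    intro a b hab
    have ha : a ∈ t := hd1.subset (hab.subset (by simp))
    have hb : b ∈ t := hd1.subset (hab.subset (by simp))
    exact (hφ2 b hb a ha).2 (hd2 hab)
  have := h3 u hsub hgood hdec
  rw [this] at hul
  omega

end Pb4bd03
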