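import Pool.Agent.Lib.Pb4bd03.Count

/-!
# Concrete potentials and the resulting upper bounds
-/

namespace Pb4bd03

open scoped List

/-- The quadratic potential, with scale `3`. -/
def quadP (T : ℕ) (E Lam lam : ℕ) : ℤ :=
  3 * (2 * T - 2 * E - Lam) + 4 * T * (2 * T - 2 * E - Lam)
    - (2 * T - 2 * E - Lam) * (2 * T - 2 * E - Lam + 1) + 4 * (T - E) + 2 * lam

theorem quadP_pot (T : ℕ) : Pot T 3 (quadP T) where
  pair := by
    intro E Lam lam lam' h1 h2 h3 h4 h5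
    obtain ⟨L, rfl⟩ : ∃ L, Lam = L + 2 := ⟨Lam - 2, by omega⟩
    have h6 : (lam' : ℤ) + 1 ≤ lam := by exact_mod_cast h3
    simp only [quadP, Nat.add_sub_cancel]
    push_cast
    nlinarith
  recd := by
    intro E Lam lam sg o E' Lam' h1 h2 h3 h4 h5 h6 h7
    obtain ⟨m, hm⟩ : ∃ m : ℕ, Lam' + o = Lam + 2 * sg + 1 + m := ⟨Lam' + o - (Lam + 2 * sg + 1), by omega⟩
    have e1 : (E' : ℤ) = E + o - sg := by
      have : (E' : ℤ) + sg = E + o := by exact_mod_cast h5
      linarith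
    have e2 : (Lam' : ℤ) = Lam + 2 * sg + 1 + m - o := by
      have : (Lam' : ℤ) + o = Lam + 2 * sg + 1 + m := by exact_mod_cast hm
      linarith
    have i1 : (sg : ℤ) ≤ E := by exact_mod_cast h3
    have i2 : (o : ℤ) ≤ sg + 1 := by exact_mod_cast h4
    simp only [quadP]
    rw [e1, e2]
    push_cast
    -- `g = 1 + m + o`
    have hE : (0 : ℤ) ≤ E := by positivity
    have hL : (0 : ℤ) ≤ Lam := by positivity
    have ho : (0 : ℤ) ≤ o := by positivity
    have hm : (0 : ℤ) ≤ m := by positivity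
    have hs : (0 : ℤ) ≤ sg := by positivity
    have hl : (0 : ℤ) ≤ lam := by positivity
    have k1 : (0 : ℤ) ≤ E * (m + o) := by positivity
    have k2 : (0 : ℤ) ≤ Lam * (m + o) := by positivity
    have k3 : (0 : ℤ) ≤ (m + o) * (m + o) := by positivity
    nlinarith
  one := by
    intro E Lam lam h1 h2 h3 h4
    obtain ⟨L, rfl⟩ : ∃ L, Lam = L + 1 := ⟨Lam - 1, by omega⟩
    simp only [quadP, Nat.add_sub_cancel]
    have hE : (0 : ℤ) ≤ E := by positivity
    have hL : (0 : ℤ) ≤ L := by positivity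
    have hl : (0 : ℤ) ≤ lam := by positivity
    push_cast
    nlinarith
  endp := by
    simp [quadP]

theorem upper_quad {k : ℕ} (hk : 3 ≤ k) {s : List ℕ} (hs : IsMinimal k s) :
    3 * s.length + 4 ≤ 4 * k ^ 2 + 3 * k := by
  obtain ⟨w, d1, d', rfl, H⟩ := exists_str hk hs
  obtain ⟨T, rfl⟩ : ∃ T, k = T + 1 := ⟨k - 1, by omega⟩
  obtain ⟨e0, e1, c0, c1, h1, h2, h3, h4, h5, h6⟩ := start_bound H (quadP_pot T) rfl
  have hl := H.len
  simp only [List.length_append, List.length_cons]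
  have h7 : 3 * (w.length : ℤ) ≤ 4 * T ^ 2 + 8 * T := by
    refine h6.trans ?_
    simp only [quadP]
    push_cast
    have a1 : (e0 : ℤ) ≤ 1 := by exact_mod_cast h1
    have a2 : (e1 : ℤ) ≤ 1 := by exact_mod_cast h2
    have a3 : (1 : ℤ) ≤ c0 + e0 := by exact_mod_cast h3
    have a4 : (1 : ℤ) ≤ c1 + e1 := by exact_mod_cast h4
    have b1 : (0 : ℤ) ≤ e0 := by positivity
    have b2 : (0 : ℤ) ≤ e1 := by positivity
    have b3 : (0 : ℤ) ≤ c0 := by positivity
    have b4 : (0 : ℤ) ≤ c1 := by positivity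
    -- with g = 2 (e0+e1) + (c0+c1)
    have : 6 + 2 * (c0 : ℤ) ≤ (2 * (e0 + e1) + (c0 + c1)) * (2 * (e0 + e1) + (c0 + c1)) +
        2 * (2 * (e0 + e1) + (c0 + c1)) + 4 * (e0 + e1) := by
      nlinarith [mul_nonneg b1 b3, mul_nonneg b1 b4, mul_nonneg b2 b3, mul_nonneg b2 b4,
        mul_nonneg b3 b4, mul_nonneg b1 b2]
    nlinarith
  have h8 : 3 * w.length ≤ 4 * T ^ 2 + 8 * T := by exact_mod_cast h7
  nlinarith

/-- lookup in a table -/
def look (t : List (List (List ℕ))) (E L l : ℕ) : ℕ := ((t.getD E []).getD L []).getD l 0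

/-- The finite list of conditions making a table a potential. -/
def Chk (T : ℕ) (f : ℕ → ℕ → ℕ → ℕ) : Prop :=
  (∀ E ∈ List.range T, ∀ L ∈ List.range (2 * T + 1), ∀ l ∈ List.range (L + 1),
    ∀ l' ∈ List.range l, 2 ≤ L → 2 * (E + 1) + (L - 2) ≤ 2 * T → l' ≤ L - 2 →
      2 + f (E + 1) (L - 2) l' ≤ f E L l) ∧
  (∀ E ∈ List.range (T + 1), ∀ L ∈ List.range (2 * T - 2 * E + 1), ∀ l ∈ List.range (L + 1),
    ∀ sg ∈ List.range (E + 1), ∀ o ∈ List.range (sg + 2),
    ∀ L' ∈ List.range (2 * T - 2 * (E + o - sg) + 1), E + o - sg ≤ T →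
      L + 2 * sg + 1 ≤ L' + o → 1 + f (E + o - sg) L' L ≤ f E L l) ∧
  (∀ E ∈ List.range (T + 1), ∀ L ∈ List.range (2 * T - 2 * E + 1), ∀ l ∈ List.range (L + 1),
    1 ≤ L → 2 * (E + 1) + (L - 1) ≤ 2 * T → 1 + f (E + 1) (L - 1) (L - 1) ≤ f E L l)

instance (T : ℕ) (f : ℕ → ℕ → ℕ → ℕ) : Decidable (Chk T f) := by
  unfold Chk; infer_instance

theorem pot_of_chk {T : ℕ} {f : ℕ → ℕ → ℕ → ℕ} (h : Chk T f) :
    Pot T 1 (fun E L l => (f E L l : ℤ)) := by
  obtain ⟨p1, p2, p3⟩ := h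
  simp only [List.mem_range] at p1 p2 p3
  constructor
  · intro E Lam lam lam' h1 h2 h3 h4 h5
    have := p1 E (by omega) Lam (by omega) lam (by omega) lam' (by omega) h1 h2 h5
    push_cast
    exact_mod_cast this
  · intro E Lam lam sg o E' Lam' h1 h2 h3 h4 h5 h6 h7
    have hE : E' = E + o - sg := by omega
    subst hE
    have := p2 E (by omega) Lam (by omega) lam (by omega) sg (by omega) o (by omega) Lam'
      (by omega) (by omega) (by omega)
    push_cast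
    exact_mod_cast this
  · intro E Lam lam h1 h2 h3 h4
    have := p3 E (by omega) Lam (by omega) lam (by omega) h2 h4
    push_cast
    exact_mod_cast this
  · positivity

def tab4 : List (List (List ℕ)) :=
  [[[18], [17, 17], [16, 16, 16], [13, 15, 15, 15], [10, 12, 12, 12, 12], [7, 9, 9, 9, 9, 9],
    [0, 2, 4, 6, 6, 6, 6]], [[14], [13, 13], [10, 10, 10], [7, 7, 7, 7], [0, 2, 4, 4, 4]],
    [[8], [3, 3], [0, 2, 2]], [[0]]]

def tab5 : List (List (List ℕ)) :=
  [[[28], [27, 27], [26, 26, 26], [23, 25, 25, 25], [20, 22, 22, 22, 22],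
    [17, 19, 19, 19, 19, 19], [12, 14, 16, 16, 16, 16, 16], [9, 11, 11, 11, 11, 11, 11, 11],
    [0, 2, 4, 6, 8, 8, 8, 8, 8]], [[24], [23, 23], [20, 20, 20], [17, 17, 17, 17],
    [12, 14, 14, 14, 14], [9, 9, 9, 9, 9, 9], [0, 2, 4, 6, 6, 6, 6]], [[18], [15, 15],
    [12, 12, 12], [7, 7, 7, 7], [0, 2, 4, 4, 4]], [[10], [3, 3], [0, 2, 2]], [[0]]]

theorem chk4 : Chk 3 (look tab4) := by decide +kernel

theorem chk5 : Chk 4 (look tab5) := by decide +kernel

theorem upper_table {k T V : ℕ} {f : ℕ → ℕ → ℕ → ℕ} (hk : 3 ≤ k) (hT : T + 1 = k) (hc : Chk T f)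
    (hV : ∀ e ∈ List.range 3, ∀ c ∈ List.range (2 * T + 1), ∀ c0 ∈ List.range (c + 1),
      2 ≤ c + e → 2 + f e c c0 ≤ V) {s : List ℕ} (hs : IsMinimal k s) : s.length ≤ V + k := by
  obtain ⟨w, d1, d', rfl, H⟩ := exists_str hk hs
  obtain ⟨e0, e1, c0, c1, h1, h2, h3, h4, h5, h6⟩ := start_bound H (pot_of_chk hc) hT
  have hl := H.len
  simp only [List.mem_range] at hV
  have := hV (e0 + e1) (by omega) (c0 + c1) (by omega) c0 (by omega) (by omega)
  push_cast at h6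
  have h7 : w.length ≤ 2 + f (e0 + e1) (c0 + c1) c0 := by
    have : (w.length : ℤ) ≤ 2 + f (e0 + e1) (c0 + c1) c0 := by linarith
    exact_mod_cast this
  simp only [List.length_append, List.length_cons]
  omega

theorem upper4 {s : List ℕ} (hs : IsMinimal 4 s) : s.length ≤ 22 :=
  upper_table (k := 4) (T := 3) (V := 18) (by omega) rfl chk4 (by decide +kernel) hs

theorem upper5 {s : List ℕ} (hs : IsMinimal 5 s) : s.length ≤ 33 :=
  upper_table (k := 5) (T := 4) (V := 28) (by omega) rfl chk5 (by decide +kernel) hs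

theorem upper3 {s : List ℕ} (hs : IsMinimal 3 s) : s.length ≤ 13 := by
  have := upper_quad le_rfl hs
  omega

end Pb4bd03
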