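import Pool.Agent.Lib.Pb4bd03.Struct

/-!
# Counting letters of a minimal sequence through a potential function
-/

namespace Pb4bd03

open scoped List

/-- A potential: `P E Λ μ` bounds `s` times the number of remaining letters.  `E` is the excess,
`Λ` the number of remaining letters below the current maximum bound, `μ` the number of remaining
letters below the letter before the last one. -/
structure Pot (T s : ℕ) (P : ℕ → ℕ → ℕ → ℤ) : Prop where
  pair : ∀ E Lam lam lam', 2 ≤ Lam → 2 * (E + 1) + (Lam - 2) ≤ 2 * T → lam' + 1 ≤ lam →
    lam ≤ Lam → lam' ≤ Lam - 2 →
    2 * (s : ℤ) + P (E + 1) (Lam - 2) lam' ≤ P E Lam lam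
  recd : ∀ E Lam lam sg o E' Lam', lam ≤ Lam → 2 * E + Lam ≤ 2 * T → sg ≤ E → o ≤ sg + 1 →
    E' + sg = E + o →
    Lam + 2 * sg + 1 ≤ Lam' + o → 2 * E' + Lam' ≤ 2 * T →
    (s : ℤ) + P E' Lam' Lam ≤ P E Lam lam
  one : ∀ E Lam lam, lam ≤ Lam → 1 ≤ Lam → 2 * E + Lam ≤ 2 * T → 2 * (E + 1) + (Lam - 1) ≤ 2 * T →
    (s : ℤ) + P (E + 1) (Lam - 1) (Lam - 1) ≤ P E Lam lam
  endp : 0 ≤ P T 0 0

/-- number of elements of a finset below `N` -/
def vl (S : Finset ℕ) (N : ℕ) : ℕ := (S.filter (· < N)).card

theorem vl_le (S : Finset ℕ) (N : ℕ) : vl S N ≤ N := by
  unfold vl
  calc _ ≤ (Finset.range N).card := by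
        apply Finset.card_le_card
        intro y hy
        simp at hy ⊢
        exact hy.2
    _ = N := by simp

theorem vl_sub (S : Finset ℕ) {M N : ℕ} (h : M ≤ N) :
    vl S N = vl S M + (S.filter (fun y => M ≤ y ∧ y < N)).card := by
  unfold vl
  rw [← Finset.card_union_of_disjoint]
  · congr 1
    ext y
    simp only [Finset.mem_filter, Finset.mem_union]
    constructor
    · rintro ⟨h1, h2⟩
      by_cases h3 : y < M
      · left; exact ⟨h1, h3⟩
      · right; exact ⟨h1, by omega, h2⟩
    · rintro (⟨h1, h2⟩ | ⟨h1, h2, h3⟩)
      · exact ⟨h1, by omega⟩
      · exact ⟨h1, h3⟩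
  · rw [Finset.disjoint_left]
    intro y hy hy'
    simp at hy hy'
    omega

theorem sum_count_le (l : List ℕ) (V : Finset ℕ) (p : ℕ → Bool) (hp : ∀ v ∈ V, p v = true) :
    ∑ v ∈ V, l.count v ≤ l.countP p := by
  induction l with
  | nil => simp
  | cons y l ih =>
    have h1 : ∀ v, (y :: l).count v = l.count v + if y = v then 1 else 0 := by
      intro v
      rw [List.count_cons]
      by_cases h : y = v <;> simp [h]
    simp only [h1, Finset.sum_add_distrib, Finset.sum_ite_eq, List.countP_cons]
    by_cases h : y ∈ V
    · simp only [h, if_true, hp y h]
      omega
    · simp only [h, if_false]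
      split_ifs <;> omega

theorem countP_split (l : List ℕ) {M N : ℕ} (h : M ≤ N) :
    l.countP (· < N) = l.countP (· < M) + l.countP (fun y => decide (M ≤ y ∧ y < N)) := by
  induction l with
  | nil => simp
  | cons y l ih =>
    simp only [List.countP_cons, ih, decide_eq_true_eq]
    by_cases h1 : y < M
    · have h2 : y < N := by omega
      simp only [h1, h2, if_true, and_true]
      rw [if_neg (by omega)]
      omega
    · by_cases h2 : y < N
      · simp only [h1, h2, if_true, if_false, and_true]
        rw [if_pos (by omega)]
        omega
      · simp only [h1, h2, if_false, and_false]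
        simp

section

variable {k : ℕ} {w d' : List ℕ} {d1 : ℕ}

theorem dnodup (H : Str k w d1 d') : d'.Nodup := by
  have := (List.pairwise_cons.1 H.dec).2
  exact this.imp (fun h => by omega)

theorem tight' (H : Str k w d1 d') :
    1 + asc w + (w.toFinset ∩ d'.toFinset).card = w.toFinset.card + (k - 1) := by
  have h1 := H.tight
  have h2 : (w ++ d').toFinset = w.toFinset ∪ d'.toFinset := by
    ext x; simp
  have h3 := Finset.card_union_add_card_inter w.toFinset d'.toFinset
  have h4 : d'.toFinset.card = k - 1 := by
    rw [List.toFinset_card_of_nodup (dnodup H)]
    have := H.len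
    omega
  rw [h2] at h1
  omega

theorem mult' (H : Str k w d1 d') {v : ℕ} (hv : v ∈ w) :
    2 ≤ w.count v + if v ∈ d'.toFinset then 1 else 0 := by
  have h1 := H.mult v hv
  have h2 : d'.count v ≤ if v ∈ d'.toFinset then 1 else 0 := by
    split_ifs with h
    · exact List.nodup_iff_count_le_one.1 (dnodup H) v
    · have : v ∉ d' := by simpa using h
      rw [List.count_eq_zero_of_not_mem this]
  omega

theorem count_bound (H : Str k w d1 d') {T s : ℕ} {P : ℕ → ℕ → ℕ → ℤ} (hP : Pot T s P)
    (hT : T + 1 = k) :
    ∀ (n : ℕ) (q p : List ℕ) (a x N B E Lam lam c : ℕ), q.length ≤ n →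
      w = p ++ a :: x :: q → a < x → (∀ y ∈ p ++ [a, x], y < N) → a < B → B ≤ N → N ≤ c →
      c = 1 + asc (p ++ [a, x]) →
      E + vl w.toFinset N = c + vl (w.toFinset ∩ d'.toFinset) N →
      Lam = q.countP (· < N) → lam = q.countP (· < B) →
      2 * E + Lam ≤ 2 * T ∧ (s : ℤ) * q.length ≤ P E Lam lam := by
  intro n
  induction n with
  | zero =>
    intro q p a x N B E Lam lam c hq hw hax hN haB hBN hNc hc hE hLam hlam
    have hq0 : q = [] := List.eq_nil_of_length_eq_zero (by omega)
    subst hq0
    simp only [List.countP_nil] at hLam hlam
    have h1 := tight' H
    have h2 : vl w.toFinset N = w.toFinset.card := by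
      unfold vl
      rw [Finset.filter_true_of_mem]
      intro y hy
      exact hN y (by rw [← hw]; simpa using hy)
    have h3 : vl (w.toFinset ∩ d'.toFinset) N = (w.toFinset ∩ d'.toFinset).card := by
      unfold vl
      rw [Finset.filter_true_of_mem]
      intro y hy
      exact hN y (by rw [← hw]; simpa using (Finset.mem_inter.1 hy).1)
    rw [← hw] at hc
    have hET : E = T := by omega
    subst hET hLam hlam
    exact ⟨by omega, by simpa using hP.endp⟩
  | succ n ih =>
    intro q p a x N B E Lam lam c hq hw hax hN haB hBN hNc hc hE hLam hlam
    cases q with
    | nil =>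
      simp only [List.countP_nil] at hLam hlam
      have h1 := tight' H
      have h2 : vl w.toFinset N = w.toFinset.card := by
        unfold vl
        rw [Finset.filter_true_of_mem]
        intro y hy
        exact hN y (by rw [← hw]; simpa using hy)
      have h3 : vl (w.toFinset ∩ d'.toFinset) N = (w.toFinset ∩ d'.toFinset).card := by
        unfold vl
        rw [Finset.filter_true_of_mem]
        intro y hy
        exact hN y (by rw [← hw]; simpa using (Finset.mem_inter.1 hy).1)
      rw [← hw] at hc
      have hET : E = T := by omega
      subst hET hLam hlam
      exact ⟨by omega, by simpa using hP.endp⟩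
    | cons b q =>
      have hr := H.rule p a x b (q ++ [d1]) (by rw [hw]; simp)
      have hcases : x < b ∨ b ≤ a := by omega
      rcases hcases with hxb | hba
      · -- next letter makes an ascent
        have hcnew : 1 + asc (p ++ [a] ++ [x, b]) = c + 1 := by
          rw [hc]
          have : p ++ [a] ++ [x, b] = (p ++ [a]) ++ [x, b] := rfl
          rw [asc_append_two]
          simp [hxb]; omega
        have hw' : w = (p ++ [a]) ++ x :: b :: q := by rw [hw]; simp
        by_cases hbN : b < N
        · -- non-record
          have hN' : ∀ y ∈ (p ++ [a]) ++ [x, b], y < N := by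
            intro y hy
            simp only [List.mem_append, List.mem_cons, List.not_mem_nil, or_false] at hy
            rcases hy with (hy | hy) | hy | hy
            · exact hN y (by simp [hy])
            · exact hN y (by simp [hy])
            · exact hN y (by simp [hy])
            · subst hy; exact hbN
          have hxN : x < N := hN x (by simp)
          obtain ⟨i1, i2⟩ := ih q (p ++ [a]) x b N N (E + 1) (q.countP (· < N)) (q.countP (· < N))
            (c + 1) (by simpa using hq) hw' hxb hN' hxN le_rfl (by omega) hcnew.symm (by omega)
            rfl rfl
          have e1 : Lam = q.countP (· < N) + 1 := by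
            rw [hLam, List.countP_cons]; simp [hbN]
          have e2 : lam ≤ Lam := by
            rw [hLam, hlam]
            apply List.countP_mono_left
            intro y _ hy
            simp only [decide_eq_true_eq] at hy ⊢
            omega
          have e3 : Lam - 1 = q.countP (· < N) := by omega
          have := hP.one E Lam lam e2 (by omega) (by omega) (by omega)
          rw [e3] at this
          refine ⟨by omega, ?_⟩
          simp only [List.length_cons]
          push_cast
          have hring : (s : ℤ) * (q.length + 1) = s * q.length + s := by ring
          rw [hring]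
          linarith
        · -- record
          push Not at hbN
          have hbc : b ≤ c := by
            have hb := H.bnd
            rw [hw] at hb
            have h5 : p ++ a :: x :: b :: q = (p ++ [a]) ++ x :: b :: q := by simp
            rw [h5, GoodR_append] at hb
            have := hb.2
            simp only [Ok_cons, id] at this
            rw [hc]
            have h6 : p ++ [a] ++ [x] = p ++ [a, x] := by simp
            rw [h6] at this
            exact this.1
          have hN' : ∀ y ∈ (p ++ [a]) ++ [x, b], y < b + 1 := by
            intro y hy
            simp only [List.mem_append, List.mem_cons, List.not_mem_nil, or_false] at hy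
            rcases hy with (hy | hy) | hy | hy
            · have := hN y (by simp [hy]); omega
            · have := hN y (by simp [hy]); omega
            · have := hN y (by simp [hy]); omega
            · omega
          have hxN : x < N := hN x (by simp)
          set S := w.toFinset with hS
          set D := d'.toFinset with hD
          have hv := vl_sub S (show N ≤ b + 1 by omega)
          have ho := vl_sub (S ∩ D) (show N ≤ b + 1 by omega)
          set V := S.filter (fun y => N ≤ y ∧ y < b + 1) with hV
          set W := (S ∩ D).filter (fun y => N ≤ y ∧ y < b + 1) with hW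
          have hbV : b ∈ V := by
            rw [hV, Finset.mem_filter, hS, List.mem_toFinset]
            exact ⟨by rw [hw]; simp, by omega, by omega⟩
          have hVpos : 1 ≤ V.card := Finset.card_pos.2 ⟨b, hbV⟩
          have hWV : W.card ≤ V.card := by
            apply Finset.card_le_card
            intro y hy
            simp only [hW, hV, Finset.mem_filter, Finset.mem_inter] at hy ⊢
            exact ⟨hy.1.1, hy.2⟩
          have hvle := vl_le S (b + 1)
          -- new parameters
          obtain ⟨sg, hsg⟩ : ∃ sg, V.card = sg + 1 := ⟨V.card - 1, by omega⟩
          obtain ⟨E', hE'⟩ : ∃ E', E' + vl S (b + 1) = c + 1 + vl (S ∩ D) (b + 1) :=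
            ⟨c + 1 + vl (S ∩ D) (b + 1) - vl S (b + 1), by omega⟩
          obtain ⟨i1, i2⟩ := ih q (p ++ [a]) x b (b + 1) N E' (q.countP (· < b + 1))
            (q.countP (· < N)) (c + 1) (by simpa using hq) hw' hxb hN' hxN (by omega) (by omega)
            hcnew.symm hE' rfl rfl
          have e1 : Lam = q.countP (· < N) := by
            rw [hLam, List.countP_cons]; simp; omega
          have e2 : lam ≤ Lam := by
            rw [hLam, hlam]
            apply List.countP_mono_left
            intro y _ hy
            simp only [decide_eq_true_eq] at hy ⊢
            omega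
          -- the count
          have hcnt : 2 * V.card ≤ q.countP (fun y => decide (N ≤ y ∧ y < b + 1)) + 1 + W.card := by
            have h7 : ∑ v ∈ V, q.count v ≤ q.countP (fun y => decide (N ≤ y ∧ y < b + 1)) := by
              apply sum_count_le
              intro v hv
              simp only [hV, Finset.mem_filter] at hv
              simpa using hv.2
            have h8 : ∀ v ∈ V, 2 ≤ q.count v + (if b = v then 1 else 0) +
                (if v ∈ D then 1 else 0) := by
              intro v hv
              simp only [hV, Finset.mem_filter] at hv
              have hvw : v ∈ w := by simpa [hS] using hv.1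
              have h9 := mult' H hvw
              have h10 : w.count v = q.count v + (if b = v then 1 else 0) := by
                rw [hw', List.append_assoc, List.count_append, List.singleton_append]
                have h11 : p.count v = 0 := by
                  rw [List.count_eq_zero]
                  intro h; have := hN v (by simp [h]); omega
                rw [h11, List.count_cons, List.count_cons, List.count_cons]
                have h12 : a ≠ v := by
                  intro h; have := hN v (by simp [h]); omega
                have h13 : x ≠ v := by
                  intro h; have := hN v (by simp [h]); omega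
                by_cases h14 : b = v <;> simp [h12, h13, h14]
              rw [h10] at h9
              exact h9
            have h15 := Finset.sum_le_sum h8
            rw [Finset.sum_add_distrib, Finset.sum_add_distrib, Finset.sum_ite_eq, if_pos hbV,
              ← Finset.card_filter] at h15
            have h16 : V.filter (· ∈ D) = W := by
              ext y
              simp only [hV, hW, Finset.mem_filter, Finset.mem_inter]
              tauto
            rw [h16] at h15
            simp only [Finset.sum_const, smul_eq_mul] at h15
            omega
          have hsplit := countP_split q (show N ≤ b + 1 by omega)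
          have h17 : 2 * E + Lam ≤ 2 * T := by omega
          have := hP.recd E Lam lam sg W.card E' (q.countP (· < b + 1)) e2 h17 (by omega) (by omega)
            (by omega) (by omega) i1
          rw [e1] at this
          rw [e1] at h17
          refine ⟨by rw [e1]; exact h17, ?_⟩
          rw [e1]
          simp only [List.length_cons]
          push_cast
          have hring : (s : ℤ) * (q.length + 1) = s * q.length + s := by ring
          rw [hring]
          linarith
      · -- a pair
        cases q with
        | nil =>
          exfalso
          have hr2 := H.rule (p ++ [a]) x b d1 [] (by rw [hw]; simp)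
          have h1 := H.lt x (by rw [hw]; simp)
          omega
        | cons z q =>
          have hr2 := H.rule (p ++ [a]) x b z (q ++ [d1]) (by rw [hw]; simp)
          have hbz : b < z ∧ z ≤ x := by omega
          have hxN : x < N := hN x (by simp)
          have hw' : w = (p ++ [a, x]) ++ b :: z :: q := by rw [hw]; simp
          have hN' : ∀ y ∈ (p ++ [a, x]) ++ [b, z], y < N := by
            intro y hy
            rw [List.mem_append] at hy
            rcases hy with hy | hy
            · exact hN y hy
            · simp only [List.mem_cons, List.not_mem_nil, or_false] at hy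
              rcases hy with hy | hy <;> omega
          have hcnew : 1 + asc ((p ++ [a, x]) ++ [b, z]) = c + 1 := by
            rw [hc, asc_append_two]
            have h5 : p ++ [a, x] ++ [b] = (p ++ [a]) ++ [x, b] := by simp
            rw [h5, asc_append_two]
            have h6 : p ++ [a] ++ [x] = p ++ [a, x] := by simp
            rw [h6, if_pos hbz.1, if_neg (by omega)]
            omega
          obtain ⟨i1, i2⟩ := ih q (p ++ [a, x]) b z N B (E + 1) (q.countP (· < N))
            (q.countP (· < B)) (c + 1) (by simp at hq; omega) hw' hbz.1 hN' (by omega) hBN
            (by omega) hcnew.symm (by omega) rfl rfl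
          have e1 : Lam = q.countP (· < N) + 2 := by
            rw [hLam, List.countP_cons, List.countP_cons]
            simp only [decide_eq_true_eq]
            rw [if_pos (by omega), if_pos (by omega)]
          have e2 : lam ≤ Lam := by
            rw [hLam, hlam]
            apply List.countP_mono_left
            intro y _ hy
            simp only [decide_eq_true_eq] at hy ⊢
            omega
          have e3 : q.countP (· < B) + 1 ≤ lam := by
            rw [hlam, List.countP_cons, List.countP_cons]
            simp only [decide_eq_true_eq]
            rw [if_pos (show b < B by omega)]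
            split_ifs <;> omega
          have e4 : q.countP (· < B) ≤ q.countP (· < N) := by
            apply List.countP_mono_left
            intro y _ hy
            simp only [decide_eq_true_eq] at hy ⊢
            omega
          have e5 : Lam - 2 = q.countP (· < N) := by omega
          have := hP.pair E Lam lam (q.countP (· < B)) (by omega) (by omega) e3 e2 (by omega)
          rw [e5] at this
          refine ⟨by omega, ?_⟩
          simp only [List.length_cons]
          push_cast
          have hring : (s : ℤ) * (q.length + 1 + 1) = s * q.length + 2 * s := by ring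
          rw [hring]
          linarith

/-- The bound obtained from the start of the word. -/
theorem start_bound (H : Str k w d1 d') {T s : ℕ} {P : ℕ → ℕ → ℕ → ℤ} (hP : Pot T s P)
    (hT : T + 1 = k) :
    ∃ e0 e1 c0 c1 : ℕ, e0 ≤ 1 ∧ e1 ≤ 1 ∧ 1 ≤ c0 + e0 ∧ 1 ≤ c1 + e1 ∧
      2 * (e0 + e1) + (c0 + c1) ≤ 2 * T ∧
      (s : ℤ) * w.length ≤ 2 * s + P (e0 + e1) (c0 + c1) c0 := by
  obtain ⟨q, hq⟩ := H.start
  set S := w.toFinset with hS
  set D := d'.toFinset with hD
  have h0 : 0 ∈ w := by rw [hq]; simp
  have h1 : 1 ∈ w := by rw [hq]; simp
  have m0 := mult' H h0
  have m1 := mult' H h1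
  rw [← hD] at m0 m1
  have c0 : w.count 0 = 1 + q.count 0 := by
    rw [hq]; simp [add_comm]
  have c1 : w.count 1 = 1 + q.count 1 := by
    rw [hq]; simp [add_comm]
  have hcount2 : ∀ l : List ℕ, l.countP (· < 2) = l.count 0 + l.count 1 := by
    intro l
    induction l with
    | nil => simp
    | cons y l ih =>
      simp only [List.countP_cons, List.count_cons, ih, decide_eq_true_eq, beq_iff_eq]
      split_ifs <;> omega
  have hcount1 : ∀ l : List ℕ, l.countP (· < 1) = l.count 0 := by
    intro l
    induction l with
    | nil => simp
    | cons y l ih =>
      simp only [List.countP_cons, List.count_cons, ih, decide_eq_true_eq, beq_iff_eq]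
      split_ifs <;> omega
  have hv : vl S 2 = 2 := by
    unfold vl
    have : S.filter (· < 2) = {0, 1} := by
      ext y
      simp only [Finset.mem_filter, hS, List.mem_toFinset, Finset.mem_insert,
        Finset.mem_singleton]
      constructor
      · rintro ⟨_, h⟩; omega
      · rintro (rfl | rfl)
        · exact ⟨h0, by omega⟩
        · exact ⟨h1, by omega⟩
    rw [this]; rfl
  have ho : vl (S ∩ D) 2 = (if (0 : ℕ) ∈ D then 1 else 0) + (if (1 : ℕ) ∈ D then 1 else 0) := by
    unfold vl
    have : (S ∩ D).filter (· < 2) = (({0, 1} : Finset ℕ).filter (· ∈ D)) := by
      ext y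
      simp only [Finset.mem_filter, Finset.mem_inter, hS, List.mem_toFinset, Finset.mem_insert,
        Finset.mem_singleton]
      constructor
      · rintro ⟨⟨_, h⟩, h'⟩
        exact ⟨by omega, h⟩
      · rintro ⟨rfl | rfl, h⟩
        · exact ⟨⟨h0, h⟩, by omega⟩
        · exact ⟨⟨h1, h⟩, by omega⟩
    rw [this, Finset.card_filter, Finset.sum_pair (by omega)]
  obtain ⟨i1, i2⟩ := count_bound H hP hT q.length q [] 0 1 2 1 (vl (S ∩ D) 2) (q.countP (· < 2))
    (q.countP (· < 1)) 2 le_rfl (by rw [hq]; simp) (by omega) (by simp) (by omega) (by omega)
    le_rfl (by simp) (by rw [← hS, ← hD, hv]; omega) rfl rfl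
  rw [hcount2, hcount1, ho] at i2
  rw [hcount2, ho] at i1
  refine ⟨if (0 : ℕ) ∈ D then 1 else 0, if (1 : ℕ) ∈ D then 1 else 0, q.count 0, q.count 1,
    by split_ifs <;> omega, by split_ifs <;> omega, by omega, by omega, i1, ?_⟩
  have hl : w.length = q.length + 2 := by rw [hq]; simp
  rw [hl]
  push_cast
  have hring : (s : ℤ) * (q.length + 2) = s * q.length + 2 * s := by ring
  rw [hring]
  linarith

end

end Pb4bd03
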