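import Pool.Agent.Lib.Pb4bd03.Struct

/-!
# The canonical words are minimal
-/

namespace Pb4bd03

open scoped List

/-- `1 + asc` on nonempty lists, `0` on the empty list. -/
def asc' (u : List ℕ) : ℕ := if u = [] then 0 else 1 + asc u

theorem asc'_append {u v : List ℕ} (h : ∀ x ∈ u, ∀ y ∈ v, x < y) :
    asc' (u ++ v) = asc' u + asc' v := by
  unfold asc'
  by_cases hu : u = []
  · subst hu; simp
  · by_cases hv : v = []
    · subst hv; simp
    · obtain ⟨p, a, rfl⟩ := exists_snoc hu
      obtain ⟨b, t, rfl⟩ := List.exists_cons_of_ne_nil hv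
      rw [if_neg (by simp), if_neg (by simp), if_neg (by simp)]
      have h1 : (p ++ [a]) ++ b :: t = (p ++ [a]) ++ b :: t := rfl
      rw [asc_append_cons, List.append_assoc, List.singleton_append, asc_append_two,
        if_pos (h a (by simp) b (by simp))]
      omega

/-- every sublist `u` has `asc' u ≤ |V(u)| + m`, with equality only for the whole list -/
def Tightly (B : List ℕ) (m : ℕ) : Prop :=
  ∀ u, u <+ B → asc' u ≤ u.toFinset.card + m ∧ (asc' u = u.toFinset.card + m → u = B)

/-- no decreasing sublist of length `k` -/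
def NoDec (k : ℕ) (B : List ℕ) : Prop := ∀ e, e <+ B → e.Pairwise (· > ·) → e.length ≠ k

theorem Tightly.append {B C : List ℕ} {m n : ℕ} (hB : Tightly B m) (hC : Tightly C n)
    (h : ∀ x ∈ B, ∀ y ∈ C, x < y) : Tightly (B ++ C) (m + n) := by
  intro u hu
  rw [List.sublist_append_iff] at hu
  obtain ⟨u1, u2, rfl, h1, h2⟩ := hu
  have h3 : ∀ x ∈ u1, ∀ y ∈ u2, x < y := fun x hx y hy => h x (h1.subset hx) y (h2.subset hy)
  have h4 : (u1 ++ u2).toFinset.card = u1.toFinset.card + u2.toFinset.card := by
    rw [List.toFinset_append, Finset.card_union_of_disjoint]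
    rw [Finset.disjoint_left]
    intro x hx hy
    simp only [List.mem_toFinset] at hx hy
    exact absurd (h3 x hx x hy) (lt_irrefl _)
  obtain ⟨a1, a2⟩ := hB u1 h1
  obtain ⟨b1, b2⟩ := hC u2 h2
  rw [asc'_append h3, h4]
  refine ⟨by omega, fun he => ?_⟩
  rw [a2 (by omega), b2 (by omega)]

theorem NoDec.append {k : ℕ} {B C : List ℕ} (hB : NoDec k B) (hC : NoDec k C)
    (h : ∀ x ∈ B, ∀ y ∈ C, x < y) : NoDec k (B ++ C) := by
  intro e he hp hl
  rw [List.sublist_append_iff] at he
  obtain ⟨e1, e2, rfl, h1, h2⟩ := he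
  by_cases h3 : e1 = []
  · subst h3
    exact hC e2 h2 (by simpa using hp) (by simpa using hl)
  · by_cases h4 : e2 = []
    · subst h4
      exact hB e1 h1 (by simpa using hp) (by simpa using hl)
    · obtain ⟨x, t, rfl⟩ := List.exists_cons_of_ne_nil h3
      obtain ⟨y, t', rfl⟩ := List.exists_cons_of_ne_nil h4
      have h5 := h x (h1.subset (by simp)) y (h2.subset (by simp))
      rw [List.pairwise_append] at hp
      have := hp.2.2 x (by simp) y (by simp)
      omega

theorem minimal_canonical {k : ℕ} {W D' : List ℕ} {D1 : ℕ} (hk : 2 ≤ k)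
    (hW : Tightly W (k - 1)) (hN : NoDec k W) (hD : (D1 :: D').Pairwise (· > ·))
    (hlen : D'.length + 1 = k) (hlt : ∀ x ∈ W, ∀ y ∈ D1 :: D', x < y)
    (hasc : IsAscentSeq (W ++ D1 :: D')) : IsMinimal k (W ++ D1 :: D') := by
  apply isMinimal_of hasc (hasDec_of hD hlen (List.sublist_append_right _ _))
  intro u hu hg hd
  have hu' := hu
  rw [List.sublist_append_iff] at hu
  obtain ⟨u', d, rfl, h1, h2⟩ := hu
  obtain ⟨e, he1, he2, he3⟩ := hd
  -- `e = D1 :: D'`
  have heD : e = D1 :: D' := by
    have he4 := he1.trans hu'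
    rw [List.sublist_append_iff] at he4
    obtain ⟨e1, e2, rfl, g1, g2⟩ := he4
    by_cases h3 : e1 = []
    · subst h3
      simp only [List.nil_append] at he3 ⊢
      exact g2.eq_of_length (by simp; omega)
    · exfalso
      by_cases h4 : e2 = []
      · subst h4
        exact hN e1 g1 (by simpa using he2) (by simpa using he3)
      · obtain ⟨x, t, rfl⟩ := List.exists_cons_of_ne_nil h3
        obtain ⟨y, t', rfl⟩ := List.exists_cons_of_ne_nil h4
        have h5 := hlt x (g1.subset (by simp)) y (g2.subset (by simp))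
        rw [List.pairwise_append] at he2
        have := he2.2.2 x (by simp) y (by simp)
        omega
  have hdD : d = D1 :: D' := by
    rw [heD, List.sublist_append_iff] at he1
    obtain ⟨e1, e2, g0, g1, g2⟩ := he1
    have : e1 = [] := by
      by_contra hne
      obtain ⟨x, t, rfl⟩ := List.exists_cons_of_ne_nil hne
      have hx1 : x ∈ W := h1.subset (g1.subset (by simp))
      have hx2 : x ∈ D1 :: D' := by rw [g0]; simp
      exact absurd (hlt x hx1 x hx2) (lt_irrefl _)
    subst this
    simp only [List.nil_append] at g0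
    rw [← g0] at g2
    exact (h2.antisymm g2)
  subst hdD
  have hu'ne : u' ≠ [] := by
    rintro rfl
    obtain ⟨a, t, ha, h0, _⟩ := hg
    simp only [List.nil_append, List.cons.injEq] at ha
    obtain ⟨rfl, rfl⟩ := ha
    obtain ⟨D2, D'', rfl⟩ : ∃ D2 D'', D' = D2 :: D'' := by
      cases D' with
      | nil => simp at hlen; omega
      | cons a b => exact ⟨a, b, rfl⟩
    have : D2 < D1 := (List.pairwise_cons.1 hD).1 D2 (by simp)
    have := rk_lt (u := D1 :: D2 :: D'') (x := D2) (y := D1) (by simp) this
    simp only [List.nil_append] at h0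
    omega
  -- the first letter of the decreasing run
  have hrk : rk (u' ++ D1 :: D') D1 ≤ asc' u' := by
    obtain ⟨p, a, rfl⟩ := exists_snoc hu'ne
    rw [good_iff] at hg
    have h3 : p ++ [a] ++ D1 :: D' = p ++ a :: (D1 :: D') := by simp
    rw [h3, GoodR_append] at hg
    have := hg.2
    simp only [Ok_cons] at this
    unfold asc'
    rw [if_neg (by simp), h3]
    exact this.1
  have hcard : u'.toFinset.card + (k - 1) ≤ rk (u' ++ D1 :: D') D1 := by
    have hD'card : D'.toFinset.card = k - 1 := by
      rw [List.toFinset_card_of_nodup]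
      · omega
      · exact (List.pairwise_cons.1 hD).2.imp (fun h => by omega)
    rw [← hD'card, ← Finset.card_union_of_disjoint]
    · unfold rk
      apply Finset.card_le_card
      intro x hx
      simp only [Finset.mem_union, List.mem_toFinset, Finset.mem_filter, List.mem_append,
        List.mem_cons] at hx ⊢
      rcases hx with hx | hx
      · exact ⟨Or.inl hx, hlt x (h1.subset hx) D1 (by simp)⟩
      · exact ⟨Or.inr (Or.inr hx), (List.pairwise_cons.1 hD).1 x hx⟩
    · rw [Finset.disjoint_left]
      intro x hx hy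
      simp only [List.mem_toFinset] at hx hy
      exact absurd (hlt x (h1.subset hx) x (List.mem_cons_of_mem _ hy)) (lt_irrefl _)
  obtain ⟨a1, a2⟩ := hW u' h1
  rw [a2 (by omega)]

/-- Decidable form of `Tightly`. -/
theorem tightly_of {B : List ℕ} {m : ℕ}
    (h : ∀ u ∈ B.sublists, asc' u ≤ u.toFinset.card + m ∧ (asc' u = u.toFinset.card + m → u = B)) :
    Tightly B m := fun u hu => h u (List.mem_sublists.2 hu)

theorem noDec_of_card {B : List ℕ} {k : ℕ} (h : B.toFinset.card < k) : NoDec k B := by
  intro e he hp hl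
  have h1 : e.toFinset.card = e.length :=
    List.toFinset_card_of_nodup (hp.imp (fun h => by omega))
  have h2 : e.toFinset ⊆ B.toFinset := by
    intro x hx
    simp only [List.mem_toFinset] at hx ⊢
    exact he.subset hx
  have := Finset.card_le_card h2
  omega

theorem noDec_of {B : List ℕ} {k : ℕ}
    (h : ∀ e ∈ B.sublists, e.Pairwise (· > ·) → e.length ≠ k) : NoDec k B :=
  fun e he => h e (List.mem_sublists.2 he)

instance : DecidablePred (fun u : List ℕ => u = []) := fun u => by infer_instance

def B1 : List ℕ := [0, 1, 0, 1]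
def B2 : List ℕ := [3, 4, 2, 4, 2, 3]
def B3 : List ℕ := [7, 8, 6, 8, 5, 7, 5, 6]
def B4 : List ℕ := [12, 13, 11, 13, 10, 12, 9, 11, 9, 10]

theorem tB1 : Tightly B1 1 := tightly_of (by decide +kernel)
theorem tB2 : Tightly B2 1 := tightly_of (by decide +kernel)
theorem tB3 : Tightly B3 1 := tightly_of (by decide +kernel)
theorem tB4 : Tightly B4 1 := tightly_of (by decide +kernel)

theorem n3B2 : NoDec 3 B2 := noDec_of (by decide +kernel)
theorem n4B3 : NoDec 4 B3 := noDec_of (by decide +kernel)
theorem n5B4 : NoDec 5 B4 := noDec_of (by decide +kernel)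

theorem min3 : IsMinimal 3 ((B1 ++ B2) ++ 7 :: [6, 5]) := by
  apply minimal_canonical (by omega)
  · exact tB1.append tB2 (by decide)
  · exact (noDec_of_card (by decide)).append n3B2 (by decide)
  · decide
  · rfl
  · decide
  · rw [isAscentSeq_iff]
    exact ⟨_, rfl, by simp [Ok, B2]⟩

theorem min4 : IsMinimal 4 ((B1 ++ B2 ++ B3) ++ 12 :: [11, 10, 9]) := by
  apply minimal_canonical (by omega)
  · exact (tB1.append tB2 (by decide)).append tB3 (by decide)
  · exact ((noDec_of_card (by decide)).append (noDec_of_card (by decide)) (by decide)).append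
      n4B3 (by decide)
  · decide
  · rfl
  · decide
  · rw [isAscentSeq_iff]
    exact ⟨_, rfl, by simp [Ok, B2, B3]⟩

theorem min5 : IsMinimal 5 ((B1 ++ B2 ++ B3 ++ B4) ++ 18 :: [17, 16, 15, 14]) := by
  apply minimal_canonical (by omega)
  · exact ((tB1.append tB2 (by decide)).append tB3 (by decide)).append tB4 (by decide)
  · exact (((noDec_of_card (by decide)).append (noDec_of_card (by decide)) (by decide)).append
      (noDec_of_card (by decide)) (by decide)).append n5B4 (by decide)
  · decide
  · rfl
  · decide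
  · rw [isAscentSeq_iff]
    exact ⟨_, rfl, by simp [Ok, B2, B3, B4]⟩

end Pb4bd03
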