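import Pool.Agent.Lib.Pb4bd03.Basic

/-!
# Structure of a `δ_k`-minimal ascent sequence
-/

namespace Pb4bd03

open scoped List

/-- `Good` with an arbitrary weight function. -/
def GoodR (r : ℕ → ℕ) (s : List ℕ) : Prop := ∃ a t, s = a :: t ∧ r a = 0 ∧ Ok r 1 a t

theorem good_iff (u : List ℕ) : Good u ↔ GoodR (rk u) u := Iff.rfl

theorem GoodR_cons (r : ℕ → ℕ) (a : ℕ) (t : List ℕ) : GoodR r (a :: t) ↔ r a = 0 ∧ Ok r 1 a t := by
  constructor
  · rintro ⟨a', t', h, h1, h2⟩
    simp at h
    obtain ⟨rfl, rfl⟩ := h
    exact ⟨h1, h2⟩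
  · rintro ⟨h1, h2⟩
    exact ⟨a, t, rfl, h1, h2⟩

theorem isAscentSeq_iff_GoodR (s : List ℕ) : IsAscentSeq s ↔ GoodR id s := by
  rw [isAscentSeq_iff]
  constructor
  · rintro ⟨t, rfl, h⟩
    exact ⟨0, t, rfl, rfl, h⟩
  · rintro ⟨a, t, rfl, h0, h⟩
    simp at h0
    subst h0
    exact ⟨t, rfl, h⟩

theorem GoodR_append (r : ℕ → ℕ) (p : List ℕ) (a : ℕ) (m : List ℕ) :
    GoodR r (p ++ a :: m) ↔ GoodR r (p ++ [a]) ∧ Ok r (1 + asc (p ++ [a])) a m := by
  cases p with
  | nil => simp [GoodR_cons]
  | cons b p =>
    have h1 : (b :: p) ++ a :: m = b :: ((p ++ [a]) ++ m) := by simp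
    have h2 : (b :: p) ++ [a] = b :: (p ++ [a]) := by simp
    have h3 : (b :: (p ++ [a])).getLast (by simp) = a := by
      rw [List.getLast_cons (by simp)]; simp
    rw [h1, GoodR_cons, Ok_append, h2, GoodR_cons, h3]
    tauto

theorem GoodR_le {r r' : ℕ → ℕ} {s : List ℕ} (h : GoodR r s) (hr : ∀ x ∈ s, r' x ≤ r x) :
    GoodR r' s := by
  obtain ⟨a, t, rfl, h0, hok⟩ := h
  refine ⟨a, t, rfl, ?_, Ok_le hok (fun x hx => hr x (by simp [hx]))⟩
  have := hr a (by simp)
  omega

theorem Ok_of_le {r : ℕ → ℕ} {c p : ℕ} {l : List ℕ} (h : ∀ x ∈ l, r x ≤ c) : Ok r c p l := by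
  induction l generalizing c p with
  | nil => trivial
  | cons x l ih =>
    refine ⟨h x (by simp), ih ?_⟩
    intro y hy
    have := h y (by simp [hy])
    split_ifs <;> omega

theorem Ok_shift {r r' : ℕ → ℕ} {C C' p : ℕ} {m : List ℕ} (h : Ok r C p m)
    (hr : ∀ y ∈ m, r' y + 1 ≤ r y ∨ r' y ≤ C') (hC : C ≤ C' + 1) : Ok r' C' p m := by
  induction m generalizing C C' p with
  | nil => trivial
  | cons y m ih =>
    simp only [Ok_cons] at h ⊢
    obtain ⟨h1, h2⟩ := h
    refine ⟨?_, ih h2 ?_ ?_⟩
    · rcases hr y (by simp) with h | h <;> omega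
    · intro z hz
      rcases hr z (by simp [hz]) with h | h
      · left; exact h
      · right; split_ifs <;> omega
    · split_ifs <;> omega

theorem rk_succ_le {u : List ℕ} {v y : ℕ} (hv : v ∉ u) (hvy : v < y) : rk u y + 1 ≤ y := by
  unfold rk
  have : insert v (u.toFinset.filter (· < y)) ⊆ Finset.range y := by
    intro z hz
    simp only [Finset.mem_insert, Finset.mem_filter, List.mem_toFinset, Finset.mem_range] at hz ⊢
    rcases hz with rfl | hz
    · exact hvy
    · exact hz.2
  have h2 := Finset.card_le_card this
  rw [Finset.card_insert_of_notMem (by simp [hv])] at h2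
  simpa using h2

theorem hasDec_of {k : ℕ} {d1 : ℕ} {d' s : List ℕ} (hdec : (d1 :: d').Pairwise (· > ·))
    (hlen : d'.length + 1 = k) (hs : (d1 :: d') <+ s) : HasDec k s :=
  ⟨d1 :: d', hs, hdec, by simpa using hlen⟩

section

variable {k : ℕ} {s : List ℕ}

theorem minimal_goodR (hs : IsMinimal k s) : GoodR id s := (isAscentSeq_iff_GoodR s).1 hs.1

/-- (S1) the tail after the first letter of a decreasing copy is the rest of that copy. -/
theorem rest_eq (hs : IsMinimal k s) {w : List ℕ} {d1 : ℕ} {rest d' : List ℕ}
    (he : s = w ++ d1 :: rest) (hsub : d' <+ rest) (hdec : (d1 :: d').Pairwise (· > ·))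
    (hlen : d'.length + 1 = k) : rest = d' := by
  have hg := minimal_goodR hs
  have hu : w ++ d1 :: d' <+ s := by
    rw [he]
    exact (List.Sublist.refl w).append (hsub.cons_cons d1)
  have hgood : Good (w ++ d1 :: d') := by
    rw [good_iff, GoodR_append]
    rw [he, GoodR_append] at hg
    refine ⟨GoodR_le hg.1 (fun x _ => rk_le_self _ x), ?_⟩
    apply Ok_of_le
    intro x hx
    have h1 : x < d1 := by
      rw [List.pairwise_cons] at hdec
      exact hdec.1 x hx
    have h2 := rk_le_self (w ++ d1 :: d') x
    have h3 : d1 ≤ 1 + asc (w ++ [d1]) := by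
      have := hg.1
      cases w with
      | nil =>
        simp only [List.nil_append, GoodR_cons, id] at this
        omega
      | cons b w =>
        have hb : ∃ p a, (b :: w) = p ++ [a] := ⟨(b :: w).dropLast, (b :: w).getLast (by simp),
          (List.dropLast_append_getLast (by simp)).symm⟩
        obtain ⟨p, a, hpa⟩ := hb
        rw [hpa] at this ⊢
        simp only [List.append_assoc, List.singleton_append] at this ⊢
        rw [GoodR_append] at this
        have h4 := this.2
        simp only [Ok_cons, id] at h4
        rw [asc_append_two]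
        omega
    omega
  have := eq_of_minimal hs hu hgood (hasDec_of hdec hlen (List.sublist_append_right _ _))
  rw [he] at this
  have := List.append_cancel_left this
  simp at this
  exact this.symm

/-- Structure of minimal sequences. -/
structure Str (k : ℕ) (w : List ℕ) (d1 : ℕ) (d' : List ℕ) : Prop where
  dec : (d1 :: d').Pairwise (· > ·)
  len : d'.length + 1 = k
  lt : ∀ x ∈ w, x < d1
  start : ∃ q, w = 0 :: 1 :: q
  tight : 1 + asc w = (w ++ d').toFinset.card
  bnd : GoodR id w
  rule : ∀ l a x b r, w ++ [d1] = l ++ a :: x :: b :: r →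
    (a < x ∧ x < b) ∨ (b ≤ a ∧ a < x) ∨ (x < b ∧ b ≤ a)
  mult : ∀ v ∈ w, 2 ≤ w.count v + d'.count v

theorem exists_snoc {l : List ℕ} (h : l ≠ []) : ∃ p a, l = p ++ [a] :=
  ⟨l.dropLast, l.getLast h, (List.dropLast_append_getLast h).symm⟩

theorem last_eq {w : List ℕ} {d1 : ℕ} {l m : List ℕ} (hm : m ≠ []) (h : w ++ [d1] = l ++ m) :
    ∃ r, m = r ++ [d1] := by
  obtain ⟨p, a, rfl⟩ := exists_snoc hm
  rw [← List.append_assoc] at h
  have := List.append_inj_right' h rfl
  simp at this
  exact ⟨p, by rw [this]⟩

theorem exists_str (hk : 3 ≤ k) (hs : IsMinimal k s) :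
    ∃ w d1 d', s = w ++ d1 :: d' ∧ Str k w d1 d' := by
  have hg := minimal_goodR hs
  obtain ⟨d, hd1, hd2, hd3⟩ := (contains_delta_iff k s).1 hs.2.1
  obtain ⟨d1, d', rfl⟩ : ∃ d1 d', d = d1 :: d' := by
    cases d with
    | nil => simp at hd3; omega
    | cons a b => exact ⟨a, b, rfl⟩
  have hlen : d'.length + 1 = k := by simpa using hd3
  rw [List.cons_sublist_iff] at hd1
  obtain ⟨r1, r2, hr, hm, hsub⟩ := hd1
  obtain ⟨w, t, rfl⟩ := List.append_of_mem hm
  have he : s = w ++ d1 :: (t ++ r2) := by rw [hr]; simp
  have hrest := rest_eq hs he (hsub.trans (List.sublist_append_right _ _)) hd2 hlen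
  rw [hrest] at he
  -- now `s = w ++ d1 :: d'`
  have hd1' : ∀ y ∈ d', y < d1 := (List.pairwise_cons.1 hd2).1
  obtain ⟨d2, d3, d'', rfl⟩ : ∃ d2 d3 d'', d' = d2 :: d3 :: d'' := by
    match d', hlen with
    | [], h => simp at h; omega
    | [_], h => simp at h; omega
    | a :: b :: c, _ => exact ⟨a, b, c, rfl⟩
  set d' := d2 :: d3 :: d'' with hd'
  have hd12 : d2 < d1 := hd1' d2 (by simp [hd'])
  have hd23 : d3 < d2 := by
    have := (List.pairwise_cons.1 hd2).2
    rw [hd', List.pairwise_cons] at this
    exact this.1 d3 (by simp)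
  -- (S2)
  have hlt2 : ∀ x ∈ w, x ≤ d2 := by
    intro x hx
    by_contra hc
    push Not at hc
    obtain ⟨w1, w2, rfl⟩ := List.append_of_mem hx
    have he2 : s = w1 ++ x :: (w2 ++ d1 :: d') := by rw [he]; simp
    have hp : (x :: d').Pairwise (· > ·) := by
      rw [List.pairwise_cons]
      refine ⟨?_, (List.pairwise_cons.1 hd2).2⟩
      intro y hy
      have h5 := (List.pairwise_cons.1 hd2).2
      rw [hd', List.pairwise_cons] at h5
      rw [hd'] at hy
      rcases List.mem_cons.1 hy with rfl | hy
      · exact hc
      · exact (h5.1 y hy).trans hc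
    have := rest_eq hs he2 ((List.sublist_cons_self d1 d').trans (List.sublist_append_right _ _))
      hp hlen
    have h6 := congrArg List.length this
    simp at h6
    omega
  have hlt : ∀ x ∈ w, x < d1 := fun x hx => lt_of_le_of_lt (hlt2 x hx) hd12
  have hwne : w ≠ [] := by
    rintro rfl
    rw [he] at hg
    simp only [List.nil_append, GoodR_cons, id] at hg
    omega
  obtain ⟨w', z, hwz⟩ := exists_snoc hwne
  have hge : GoodR id (w' ++ [z]) ∧ d1 ≤ 1 + asc w := by
    rw [he, hwz] at hg
    simp only [List.append_assoc, List.singleton_append] at hg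
    rw [GoodR_append] at hg
    refine ⟨hg.1, ?_⟩
    have := hg.2
    simp only [Ok_cons, id] at this
    rw [hwz]; exact this.1
  have hbnd : GoodR id w := by rw [hwz]; exact hge.1
  have hwhead : ∃ w0, w = 0 :: w0 := by
    obtain ⟨a, t, h1, h2, _⟩ := hbnd
    simp at h2
    exact ⟨t, by rw [h1, h2]⟩
  -- rule
  have hrule : ∀ l a x b r, w ++ [d1] = l ++ a :: x :: b :: r →
      (a < x ∧ x < b) ∨ (b ≤ a ∧ a < x) ∨ (x < b ∧ b ≤ a) := by
    intro l a x b r h
    by_contra hcon
    have he3 : s = l ++ a :: x :: b :: (r ++ d') := by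
      have : s = (w ++ [d1]) ++ d' := by rw [he]; simp
      rw [this, h]; simp
    have hsubu : l ++ a :: b :: (r ++ d') <+ s := by
      rw [he3]
      exact (List.Sublist.refl l).append (List.Sublist.cons_cons a (List.sublist_cons_self _ _))
    rw [he3, GoodR_append] at hg
    obtain ⟨hg1, hg2⟩ := hg
    simp only [Ok_cons, id] at hg2
    obtain ⟨g1, g2, g3⟩ := hg2
    have hgood : Good (l ++ a :: b :: (r ++ d')) := by
      rw [good_iff, GoodR_append]
      refine ⟨GoodR_le hg1 (fun x _ => rk_le_self _ x), ?_⟩
      simp only [Ok_cons]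
      refine ⟨?_, ?_⟩
      · refine (rk_le_self _ _).trans ?_
        split_ifs at g2 <;> omega
      · refine Ok_le (Ok_mono g3 ?_) (fun y _ => rk_le_self _ y)
        split_ifs <;> omega
    obtain ⟨r', hr'⟩ : ∃ r', b :: r = r' ++ [d1] := by
      apply last_eq (w := w) (l := l ++ [a, x]) (by simp)
      rw [h]; simp
    have hdec : HasDec k (l ++ a :: b :: (r ++ d')) := by
      apply hasDec_of hd2 hlen
      have : l ++ a :: b :: (r ++ d') = (l ++ [a] ++ r') ++ (d1 :: d') := by
        have : b :: (r ++ d') = (b :: r) ++ d' := by simp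
        rw [this, hr']; simp
      rw [this]
      exact List.sublist_append_right _ _
    have := eq_of_minimal hs hsubu hgood hdec
    rw [he3] at this
    have h7 := congrArg List.length this
    simp at h7
  -- start
  have hstart : ∃ q, w = 0 :: 1 :: q := by
    obtain ⟨w0, hw0⟩ := hwhead
    cases w0 with
    | nil =>
      exfalso
      have := hge.2
      rw [hw0] at this
      simp at this
      omega
    | cons y q =>
      have hy : y ≤ 1 := by
        have := hbnd
        rw [hw0, GoodR_cons] at this
        simpa using this.2.1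
      have hy0 : y ≠ 0 := by
        rintro rfl
        have hne : q ++ [d1] ≠ [] := by simp
        obtain ⟨b, r, hbr⟩ : ∃ b r, q ++ [d1] = b :: r := by
          cases hq : q ++ [d1] with
          | nil => exact absurd hq hne
          | cons b r => exact ⟨b, r, rfl⟩
        have := hrule [] 0 0 b r (by rw [hw0]; simp [hbr])
        omega
      exact ⟨q, by rw [hw0]; congr; omega⟩
  -- tightness
  have hcard1 : (w ++ d').toFinset.card ≤ 1 + asc w := by
    refine le_trans ?_ hge.2
    have : (w ++ d').toFinset ⊆ Finset.range d1 := by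
      intro x hx
      simp only [List.mem_toFinset, List.mem_append, Finset.mem_range] at hx ⊢
      rcases hx with hx | hx
      · exact hlt x hx
      · exact hd1' x hx
    simpa using Finset.card_le_card this
  have htight : 1 + asc w = (w ++ d').toFinset.card := by
    apply le_antisymm _ hcard1
    by_contra hc
    push Not at hc
    have hne : w' ≠ [] := by
      rintro rfl
      simp at hwz
      obtain ⟨q, hq⟩ := hstart
      rw [hwz] at hq
      simp at hq
    obtain ⟨w'', z', hwz'⟩ := exists_snoc hne
    have hsubu : w' ++ d1 :: d' <+ s := by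
      rw [he, hwz]
      simp only [List.append_assoc, List.singleton_append]
      exact (List.Sublist.refl w').append (List.sublist_cons_self _ _)
    have hrk : rk (w' ++ d1 :: d') d1 ≤ (w ++ d').toFinset.card := by
      unfold rk
      apply Finset.card_le_card
      intro x hx
      simp only [Finset.mem_filter, List.mem_toFinset, List.mem_append, List.mem_cons] at hx ⊢
      rw [hwz]
      simp only [List.mem_append]
      rcases hx with ⟨h | h | h, h'⟩
      · left; left; exact h
      · omega
      · right; exact h
    have hasc : asc w ≤ 1 + asc w' := by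
      rw [hwz, hwz']
      simp only [List.append_assoc, List.singleton_append]
      rw [asc_append_two]
      split_ifs <;> omega
    have hgood : Good (w' ++ d1 :: d') := by
      rw [good_iff, hwz']
      simp only [List.append_assoc, List.singleton_append]
      rw [GoodR_append]
      have hbnd' := hbnd
      rw [hwz, hwz'] at hbnd'
      simp only [List.append_assoc, List.singleton_append] at hbnd'
      rw [GoodR_append] at hbnd'
      refine ⟨GoodR_le hbnd'.1 (fun x _ => rk_le_self _ x), ?_⟩
      apply Ok_of_le
      intro x hx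
      have hx' : x ≤ d1 := by
        rcases List.mem_cons.1 hx with rfl | hx
        · exact le_rfl
        · exact (hd1' x hx).le
      have h8 := rk_mono (w' ++ d1 :: d') hx'
      have h9 : (w'' ++ z' :: d1 :: d') = w' ++ d1 :: d' := by rw [hwz']; simp
      rw [h9, ← hwz']
      omega
    have := eq_of_minimal hs hsubu hgood (hasDec_of hd2 hlen (List.sublist_append_right _ _))
    rw [he, hwz] at this
    have h7 := congrArg List.length this
    simp at h7
  -- multiplicity
  have hmult : ∀ v ∈ w, 2 ≤ w.count v + d'.count v := by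
    intro v hv
    by_contra hc
    push Not at hc
    have hvd1 : v ≠ d1 := (hlt v hv).ne
    have hcp := List.count_pos_iff.2 hv
    have hvd' : v ∉ d' := by
      intro h
      have := List.count_pos_iff.2 h
      omega
    obtain ⟨w1, w2, hw12⟩ := List.append_of_mem hv
    have hcw : w1.count v = 0 ∧ w2.count v = 0 := by
      have : w.count v = w1.count v + (w2.count v + 1) := by
        rw [hw12, List.count_append, List.count_cons_self]
      omega
    have hv1 : v ∉ w1 := by
      intro h; have := List.count_pos_iff.2 h; omega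
    have hv2 : v ∉ w2 := by
      intro h; have := List.count_pos_iff.2 h; omega
    obtain ⟨b, r, hbr⟩ : ∃ b r, w2 ++ [d1] = b :: r := by
      cases hq : w2 ++ [d1] with
      | nil => simp at hq
      | cons b r => exact ⟨b, r, rfl⟩
    have hsb : s = w1 ++ v :: b :: (r ++ d') := by
      have : s = w1 ++ v :: ((w2 ++ [d1]) ++ d') := by rw [he, hw12]; simp
      rw [this, hbr]; simp
    have hsubu : w1 ++ b :: (r ++ d') <+ s := by
      rw [hsb]
      exact (List.Sublist.refl w1).append (List.sublist_cons_self _ _)
    have hvu : v ∉ w1 ++ b :: (r ++ d') := by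
      have : w1 ++ b :: (r ++ d') = w1 ++ (w2 ++ [d1]) ++ d' := by rw [hbr]; simp
      rw [this]
      simp only [List.mem_append, List.mem_singleton]
      tauto
    have hdec : HasDec k (w1 ++ b :: (r ++ d')) := by
      apply hasDec_of hd2 hlen
      have : w1 ++ b :: (r ++ d') = (w1 ++ w2) ++ (d1 :: d') := by
        have : w1 ++ b :: (r ++ d') = w1 ++ (b :: r) ++ d' := by simp
        rw [this, ← hbr]; simp
      rw [this]
      exact List.sublist_append_right _ _
    have hgood : Good (w1 ++ b :: (r ++ d')) := by
      rcases List.eq_nil_or_concat w1 with rfl | ⟨l, a, rfl⟩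
      · -- `v = 0` is the first letter
        obtain ⟨w0, hw0⟩ := hwhead
        have hv0 : v = 0 := by
          rw [hw0] at hw12
          simp at hw12
          exact hw12.1.symm
        subst hv0
        rw [hsb] at hg
        simp only [List.nil_append, GoodR_cons, Ok_cons, id] at hg hvu ⊢
        obtain ⟨-, hb1, hrest⟩ := hg
        have hb0 : b ≠ 0 := by
          intro h; apply hvu; simp [h]
        have hb : b = 1 := by omega
        subst hb
        rw [good_iff, GoodR_cons]
        constructor
        · have := rk_succ_le (y := 1) hvu (by omega)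
          omega
        · refine Ok_shift hrest ?_ (by simp)
          intro y hy
          left
          refine rk_succ_le hvu ?_
          rcases Nat.eq_zero_or_pos y with h | h
          · subst h
            exact absurd (List.mem_cons_of_mem _ hy) hvu
          · exact h
      · simp only [List.append_assoc, List.concat_eq_append, List.singleton_append] at *
        rw [hsb] at hg
        rw [GoodR_append] at hg
        obtain ⟨hg1, hg2⟩ := hg
        simp only [Ok_cons, id] at hg2
        obtain ⟨g1, g2, g3⟩ := hg2
        rw [good_iff, GoodR_append]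
        refine ⟨GoodR_le hg1 (fun x _ => rk_le_self _ x), ?_⟩
        set u := l ++ a :: b :: (r ++ d') with hu
        have key : ∀ y ∈ b :: (r ++ d'), rk u y + 1 ≤ y ∨ rk u y ≤ 1 + asc (l ++ [a]) := by
          intro y hy
          have hyv : y ≠ v := by
            rintro rfl
            apply hvu
            rw [hu]
            simp only [List.mem_append, List.mem_cons] at hy ⊢
            tauto
          rcases lt_or_gt_of_ne hyv with h | h
          · right
            have := rk_le_self u y
            omega
          · left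
            exact rk_succ_le hvu h
        simp only [Ok_cons]
        refine ⟨?_, Ok_shift g3 ?_ ?_⟩
        · rcases key b (by simp) with h | h
          · split_ifs at g2 <;> omega
          · exact h
        · intro y hy
          rcases key y (List.mem_cons_of_mem _ hy) with h | h
          · left; exact h
          · right; split_ifs <;> omega
        · split_ifs <;> omega
    have := eq_of_minimal hs hsubu hgood hdec
    rw [hsb] at this
    have h7 := congrArg List.length this
    simp at h7
  exact ⟨w, d1, d', he, ⟨hd2, hlen, hlt, hstart, htight, hbnd, hrule, hmult⟩⟩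

end

end Pb4bd03
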